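import Pool.Agent.LibBd83.Pos
import Pool.Agent.LibBU85.Z

/-!
# Countable choice for Borel sets of reals: question Q1 for all ordinals

Let `α ≥ 1` be an ordinal. There is a model of ZF in which countable choice holds for the sequences of
nonempty `Σ⁰_α` sets of reals, but not for the sequences of nonempty `Σ⁰_{α+1}` sets, if and only if
`α` is countable.

The definitions (models of ZF, the natural numbers and the reals of a model, the classes `Σ⁰_a` of a
model for its ordinals `a`, countable choice) are in `Pool.Agent.LibBc83.Def` and
`Pool.Agent.LibBd83.Def2`.

## Outline of the proof for countable `α`

Let `𝓕` be a filter on `ℕ` which contains the cofinite sets, `𝓙` its dual ideal, and force with the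
measure algebra of `2^(ℕ × ℕ × ℕ)`; the bits `(b, i, l)`, `l < i`, give a random number `g_b(i)` below
`2^i`. The group consists of the translations by those `γ` such that for each `b` the set
`{i : γ (b, i, ·) ≠ 0}` is in `𝓙`, and a support is a finite set of blocks `b`; this gives a symmetric
Boolean valued model.

Failure of choice. Let `Q` be a family of infinite subsets of `ℕ` which contains `ℕ` and is invariant
under changes on sets in `𝓙`, and let `A_b` be the set of the `h : ℕ → ℕ` with
`{i : h i = g_b(i)} ∈ Q`. The sequence of the sets `A_b` has the empty support, and `g_b` is in `A_b`; but a
real whose support does not contain `b` is independent of `g_b`, so it agrees with it only at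
finitely many places, by the Borel-Cantelli lemma. The set `A_b` is in the class of `Q`.

Choice. Let `P` be a subset of the Cantor space for which there are clopen sets `C i` such that
`z ∈ P` or `z ∉ P` if `{i : z ∈ C i}` is in `𝓕` or in `𝓙`, respectively, and let `P` be not in `Σ⁰_α`. Suppose
that a set of the class `Σ⁰_α` of the model, with the support `F₀`, has a member `f`, with the
support `F₀ ∪ F'`, but no member with the support `F₀`. For `z` in the Cantor space exchange the
bits `(b, i, ·)` with `b ∈ F'` and `z ∉ C i` by independent ones, in the set but not in `f`. For
`z ∈ P` this does not change the probability that `f` is in the set, and for `z ∉ P` the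
probability becomes `0`. So `P` is the set of the `z` for which this probability is positive, and
the set of these `z` is in `Σ⁰_α`, a contradiction.

The filters: the cofinite filter for `α = 1`, and iterated Fubini sums of filters for smaller ordinals
for `α > 1`. A Henkin argument makes a two valued model `(M, E)` out of the Boolean valued one, in
which `α` is standard (here it is used that `α` is countable).

## Outline of the proof for uncountable `α`

We argue in a model in which `α` is an ordinal; it is not countable there. Let `κ ≤ α` be the least
uncountable ordinal of the model. If `κ` is the supremum of countable ordinals `α_n`, `n ∈ ω`, let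
`A_n` be the set of the reals which code a well-ordering of type `α_n`. It is a Borel set of some
rank below `κ` (an induction along `α_n`, without choice), and the sequence is uniformly in `Σ⁰_κ`. So
choice for (uniformly) `Σ⁰_α` gives enumerations of all `α_n` at once, and `κ` would be countable. So
`κ` is regular, and then all the classes `Σ⁰_β`, `β ≥ κ`, are equal.
-/

namespace Pool.Agent.Results.MP_702eac_lc.QuestionOne

open Pool.Agent.LibBc83 Pool.Agent.LibBd83

/-- Question Q1 for all ordinals `α ≥ 1`: there is a model of ZF (in which `α` is an ordinal) with
`AC_ω(ℝ; Σ⁰_α)` in which `AC_ω(ℝ; Σ⁰_{α+1})` fails, if and only if `α` is countable. -/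
theorem result (α : Ordinal.{0}) (h1 : 1 ≤ α) : Q1 α ↔ (Set.Iio α).Countable := by
  constructor
  · rintro ⟨M, E, a, a', h, ha, ha', h2, h3⟩
    by_contra hα
    exact h3 (Pool.Agent.LibBU85.neg_one h hα ha ha' h2)
  · intro hc
    obtain ⟨M, E, a, a', h, ha, ha', h2, -, h4, -, -⟩ := pos_one α h1 hc
    exact ⟨M, E, a, a', h, ha, ha', h2, h4⟩

end Pool.Agent.Results.MP_702eac_lc.QuestionOne
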