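import Pool.Agent.LibBd83.Pos
import Pool.Agent.LibBd83.U1
import Pool.Agent.LibBU85.Z

/-!
# Countable choice for Borel sets of reals: question Q2 for all ordinals

Let `α ≥ 1` be an ordinal. There is a model of ZF with countable choice for the sequences of
nonempty sets of reals which are uniformly in `Σ⁰_α`, but not for those uniformly in `Σ⁰_{α+1}`, if
and only if `α ≥ 2` and `α` is countable.

The definitions (models of ZF, the natural numbers and the reals of a model, the classes `Σ⁰_a` of a
model for its ordinals `a`, countable choice) are in `Pool.Agent.LibBc83.Def` and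
`Pool.Agent.LibBd83.Def2`. Outline of the proof: for `α = 1`, a sequence which is uniformly in
`Σ⁰₂` has uniformly given closed subsets, and the leftmost branch of a tree is a member. For a
countable `α ≥ 2` the models are those of `Pool.Agent.Results.MP_702eac_lc.QuestionOne` for the
predecessor of `α` if `α` is a successor ordinal, and for a limit ordinal `α` the model with the
union of an increasing sequence of (images of) the filters for smaller ordinals. Choice for the
sequences uniformly in `Σ⁰_α` follows from the fact that a nonempty set in a class `Π⁰_γ`, `γ < α`,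
has a member with the same support. For uncountable `α`: as for question Q1.
-/

namespace Pool.Agent.Results.MP_702eac_lc.QuestionTwo

open Pool.Agent.LibBc83 Pool.Agent.LibBd83

/-- Question Q2 for all ordinals `α ≥ 1`: there is a model of ZF (in which `α` is an ordinal) with
`AC_ω(ℝ; unif Σ⁰_α)` in which `AC_ω(ℝ; unif Σ⁰_{α+1})` fails, if and only if `α ≥ 2` and `α` is
countable. -/
theorem result (α : Ordinal.{0}) (h1 : 1 ≤ α) : Q2 α ↔ 1 < α ∧ (Set.Iio α).Countable := by
  constructor
  · rintro ⟨M, E, a, a', hZ, ha, ha', h2, h3⟩
    refine ⟨h1.lt_of_ne fun h0 => ?_, ?_⟩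
    · subst h0
      exact h3 (acuo_two hZ ha ha')
    · by_contra hα
      exact h3 (Pool.Agent.LibBU85.neg_two hZ hα ha ha' h2)
  · rintro ⟨h2, hc⟩
    exact pos_two α h2 hc

end Pool.Agent.Results.MP_702eac_lc.QuestionTwo
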